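import Pool.Agent.helper69.AD.GS6

/-!
Module XR4: the realised coordinates are invariant under twists along the pants decomposition
of the coordinates (as FE5, with the weights of the earthquake given by the classes).
-/

open scoped MatrixGroups LinearAlgebra.Projectivization
open Matrix UpperHalfPlane
open Pool.Agent.helper73.AD (PS Arc Word sg AData Family PreFamily Cone bs)

namespace AdSBend

noncomputable section

open LeafSystem

theorem XR4_trans {g h k : SL(2, ℝ)} (e : PEq g h) (e' : PEq h k) : PEq g k := by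
  rcases e with e | e <;> rcases e' with e' | e'
  · left; rw [e, e']
  · right; rw [e, e']
  · right; rw [e, e']
  · left; rw [e, e', neg_neg]

theorem XR4_mulr {g h : SL(2, ℝ)} (e : PEq g h) (k : SL(2, ℝ)) : PEq (g * k) (h * k) := by
  rcases e with e | e
  · left; rw [e]
  · right; rw [e, neg_mul]

theorem XR4_seamCoPl (pn2 : PN2_stmt) (Γ : Subgroup SL(2, ℝ)) (hΓ : IsClosedSurfaceGroup Γ)
    (S : LeafSystem Γ) (p u : Bd × Bd) (h : S.Seam p u) : S.CoPl p u := by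
  obtain ⟨r, h | h⟩ := h
  · exact h.1
  · exact (pn2 Γ hΓ S).1 _ _ h.1

/-- XR4 -/
theorem XR4 (bd11 : BD11_stmt) (gm1 : GM1_stmt) (pn2 : PN2_stmt) (pn3 : PN3_stmt)
    (qc2 : QC2_stmt) (tf2 : TF2_stmt) (fa1 : FA1_stmt) (fb1 : FB1_stmt) :
    XR4_stmt := by
  intro Γ hΓ J _ _ S D hS hne f f' r r' B T z hr hr' hB hz
  obtain ⟨q1, q2, q3⟩ := qc2 Γ hΓ S hS hne _ f f' r r' B hr hr' hB
  have hA : S.AdmS r := tf2 Γ hΓ S _ r hr
  have hA' : S.AdmS r' := tf2 Γ hΓ S _ r' hr'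
  obtain ⟨a1, a2, -, -, -⟩ := fb1 Γ hΓ S r hA
  obtain ⟨b1, b2, -, -, -⟩ := fb1 Γ hΓ S r' hA'
  refine ⟨?_, ?_⟩
  · intro j
    rw [q1 (D.P j) (D.memP j), ← hz.1 j]
    simp
  · intro j F' G' hF' hG'
    obtain ⟨F, hF⟩ := a1 _ _ (D.seamU j)
    obtain ⟨G, hG⟩ := a1 _ _ (D.seamV j)
    have hmem : D.P j ∈ S.L := D.memP j
    have hmem' : sw (D.P j) ∈ S.L := S.swap _ hmem
    obtain ⟨x, hx⟩ := (pn3 Γ hΓ S _ hmem).1
    obtain ⟨y, hy⟩ := (pn3 Γ hΓ S _ hmem').1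
    have c1 := q2 _ _ F x (XR4_seamCoPl pn2 Γ hΓ S _ _ (D.seamU j)) hx hF
    have c2 := q2 _ _ G y (XR4_seamCoPl pn2 Γ hΓ S _ _ (D.seamV j)) hy hG
    have hgen := gm1 Γ hΓ (D.P j) (S.closed _ hmem)
    have hatt := (bd11 Γ _ r hr).2.2.2.2.1 _ hgen.1 _ hgen.2.1
    have hfr : IsFrame F (f (D.P j).1, f (D.P j).2) :=
      fa1.2.2.2.1 _ _ F _ (hA.1.2.1 _ hmem) hF hatt
    have c3 := q3 (D.P j) hmem x y F G (z.2 j) hx hy hfr (hz.2 j F G hF hG)
    have hcl : D.cls (D.P j) = j := D.clsP j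
    simp only [hcl] at c3
    have d1 := b2 _ _ _ _ (D.seamU j) c1 hF'
    have d2 := b2 _ _ _ _ (D.seamV j) hG' c2
    have e1 : PEq F' (B y * G * Rm * Dm (z.2 j + T j)) := XR4_trans d1 c3
    exact XR4_trans e1 (XR4_mulr (XR4_mulr d2 Rm) _)

end

end AdSBend
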