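import Pool.Agent.helper69.AD.GS6

/-!
Module XR5: the realised coordinates are invariant under twists along both pants decompositions.
-/

open scoped MatrixGroups LinearAlgebra.Projectivization
open Matrix UpperHalfPlane
open Pool.Agent.helper73.AD (PS Arc Word sg AData Family PreFamily Cone bs)

namespace AdSBend

noncomputable section

open LeafSystem

/-- the twist deformation of a marked structure is a marked structure -/
theorem XR5_real (tw2 : TW2_stmt) (xe8 : XE8_stmt) (bd11 : BD11_stmt) (tf2 : TF2_stmt)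
    (Γ : Subgroup SL(2, ℝ)) (hΓ : IsClosedSurfaceGroup Γ) (S : LeafSystem Γ) (f : Bd ≃ Bd)
    (r : SL(2, ℝ) → SL(2, ℝ)) (hr : IsConjBy Γ f r) (z₀ : ℍ) (h₀ : S.OffPt z₀)
    (T : Bd × Bd → ℝ) (h1 : ∀ γ ∈ Γ, ∀ p ∈ S.L, T (ga γ p) = T p)
    (h2 : ∀ p ∈ S.L, T (sw p) = T p) :
    (∃ A, S.IsTwist r T z₀ A) ∧ ∀ A, S.IsTwist r T z₀ A →
      ∃ f' : Bd ≃ Bd, IsConjBy Γ f' (fun γ => A (γ • z₀) * r γ) ∧ S.IsQuake T f f' r A := by
  have hA : S.AdmS r := tf2 Γ hΓ S f r hr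
  have hrep : IsPRep Γ r := (bd11 Γ f r hr).2.2.2.2.2
  exact ⟨(tw2 Γ hΓ S r T z₀ hrep hA.1.2.1 h1 h2 h₀).1,
    fun A hT => xe8 Γ hΓ S f r T z₀ A hr h₀ h1 h2 hT⟩

/-- XR5 -/
theorem XR5 (bd11 : BD11_stmt) (pn3 : PN3_stmt) (pn5 : PN5_stmt) (tw2 : TW2_stmt)
    (tf2 : TF2_stmt) (fb4 : FB4_stmt) (fe1 : FE1_stmt) (xr4 : XR4_stmt) (xe8 : XE8_stmt) :
    XR5_stmt := by
  classical
  intro Γ hΓ J K _ _ _ _ X hne hne'
  refine ⟨?_, ?_⟩
  · rintro z ⟨f, r, hr, hz⟩ t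
    obtain ⟨p, hp⟩ := hne
    obtain ⟨z₀, hz₀⟩ := (pn3 Γ hΓ X.S p hp).1
    have h₀ : X.S.OffPt z₀ := hz₀.1
    have h1 : ∀ γ ∈ Γ, ∀ p ∈ X.S.L,
        (fun p => t (X.D.cls p)) (ga γ p) = (fun p => t (X.D.cls p)) p := by
      intro γ hγ p hp
      simp only [X.D.cls_ga γ hγ p hp]
    have h2 : ∀ p ∈ X.S.L,
        (fun p => t (X.D.cls p)) (sw p) = (fun p => t (X.D.cls p)) p := by
      intro p hp
      simp only [X.D.cls_sw p hp]
    obtain ⟨⟨A, hA⟩, hq⟩ := XR5_real tw2 xe8 bd11 tf2 Γ hΓ X.S f r hr z₀ h₀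
      (fun p => t (X.D.cls p)) h1 h2
    obtain ⟨f', hf', hqk⟩ := hq A hA
    exact ⟨f', _, hf', xr4 Γ hΓ J X.S X.D X.pants ⟨p, hp⟩ f f' r _ A t z hr hf' hqk hz⟩
  · rintro z ⟨f, r, hr, hz⟩ k
    obtain ⟨p, hp⟩ := hne'
    obtain ⟨z₀, hz₀⟩ := (pn3 Γ hΓ X.S' p hp).1
    have h₀ : X.S'.OffPt z₀ := hz₀.1
    have h1 : ∀ T : K → ℝ, ∀ γ ∈ Γ, ∀ p ∈ X.S'.L,
        (fun p => T (X.D'.cls p)) (ga γ p) = (fun p => T (X.D'.cls p)) p := by
      intro T γ hγ p hp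
      simp only [X.D'.cls_ga γ hγ p hp]
    have h2 : ∀ T : K → ℝ, ∀ p ∈ X.S'.L,
        (fun p => T (X.D'.cls p)) (sw p) = (fun p => T (X.D'.cls p)) p := by
      intro T p hp
      simp only [X.D'.cls_sw p hp]
    have hex : ∀ T : K → ℝ, ∃ A, X.S'.IsTwist r (fun p => T (X.D'.cls p)) z₀ A := fun T =>
      (XR5_real tw2 xe8 bd11 tf2 Γ hΓ X.S' f r hr z₀ h₀
        (fun p => T (X.D'.cls p)) (h1 T) (h2 T)).1
    choose A hA using hex
    have hDef : X.Def f r z₀ A := ⟨hr, h₀, hA⟩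
    obtain ⟨Φ, hΦ⟩ := fe1 Γ hΓ J K X f r z₀ A hDef
    have hreal : ∀ T : K → ℝ, Φ.Z T ∈ X.Real := by
      intro T
      obtain ⟨f', hf', -⟩ := (XR5_real tw2 xe8 bd11 tf2 Γ hΓ X.S' f r hr z₀ h₀
        (fun p => T (X.D'.cls p)) (h1 T) (h2 T)).2 (A T) (hA T)
      exact ⟨f', _, hf', hΦ T⟩
    have hAr : X.S.AdmS r := tf2 Γ hΓ X.S f r hr
    have hrep : IsPRep Γ r := (bd11 Γ f r hr).2.2.2.2.2
    have hAr' : X.S'.AdmS r := tf2 Γ hΓ X.S' f r hr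
    have hzero : Φ.Z 0 = z := by
      have t0 := ((tw2 Γ hΓ X.S' r (fun p => (0 : K → ℝ) (X.D'.cls p)) z₀ hrep hAr'.1.2.1
        (h1 0) (h2 0) h₀).2 (A 0) (hA 0)).2.2.2.2 rfl
      have hP : ∀ γ ∈ Γ, PEq ((fun γ => A 0 (γ • z₀) * r γ) γ) (1 * r γ * (1 : SL(2, ℝ))⁻¹) := by
        intro γ hγ
        left
        have hoff : X.S'.OffPt (γ • z₀) := (pn5 Γ X.S').2.2.1 γ hγ z₀ h₀
        simp only [t0 _ hoff, one_mul, inv_one, mul_one]
      obtain ⟨ha, hc⟩ := (fb4 Γ hΓ X.S J X.D r hAr).2.2.2 _ 1 z hP hz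
      exact (fb4 Γ hΓ X.S J X.D _ ha).2.1 z (Φ.Z 0) hc (hΦ 0)
    refine ⟨fun s => Φ.Z (s • Pi.single k 1), ?_, ?_⟩
    · simp only [zero_smul]
      exact hzero
    · intro s
      refine ⟨hreal _, ?_⟩
      have hin : HasDerivAt (fun s : ℝ => s • (Pi.single k 1 : K → ℝ)) (Pi.single k 1) s := by
        have := (hasDerivAt_id s).smul_const (Pi.single k 1 : K → ℝ)
        simpa using this
      have hcomp := (Φ.dZ (s • Pi.single k 1)).comp_hasDerivAt s hin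
      have hval : (∑ k', (ContinuousLinearMap.proj k' : (K → ℝ) →L[ℝ] ℝ).smulRight
          (sg (fderiv ℝ (X.w k').H (Φ.Z (s • Pi.single k 1))))) (Pi.single k 1) =
          sg (fderiv ℝ (X.w k).H (Φ.Z (s • Pi.single k 1))) := by
        rw [ContinuousLinearMap.sum_apply, Finset.sum_eq_single k]
        · simp
        · intro k' _ hk'
          simp [Pi.single_apply, hk']
        · intro h
          exact absurd (Finset.mem_univ k) h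
      rw [hval] at hcomp
      exact hcomp

end

end AdSBend
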